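import Pool.Agent.GrUp.Final

/-!
The effective cones of `k`-cycles of the very general hypersurface `X` of degree `d` of
`G = Gr(2,n)`, for every `d ≥ 1` and every `k > dim X / 2` (for odd `n` except `k = n - 2`):
`Eff_k(X) = h · Eff_(k+1)(G)`.
-/

namespace Pool.Agent.Results.MP_0e978c_ag.LinesUpperHalf

open MvPolynomial Pool.Agent.GrUp
open Pool.Agent.GrCyc (Gr zeros IsHypersurface)

theorem result (n d k : ℕ) (hn : 3 ≤ n) (hd : 1 ≤ d) (hk : n + n % 2 ≤ k + 2) :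
    ∃ 𝒬 : Set (MvPolynomial {m : (Fin 2 ↪o Fin n) →₀ ℕ // m.degree = d} ℂ),
      𝒬.Countable ∧ 0 ∉ 𝒬 ∧
      ∀ P : MvPolynomial (Fin 2 ↪o Fin n) ℂ, P.IsHomogeneous d →
        (∀ Q ∈ 𝒬, eval (fun m => P.coeff m.1) Q ≠ 0) →
        IsHypersurface d (zeros P) ∧
          effCone k (zeros P) = hyp k '' effCone (k + 1) (Set.univ : Set (Gr 2 n)) :=
  ⟨ratPols n d, countable_ratPols n d, zero_notMem_ratPols n d,
    fun _ hP h => very_general k d hn hd hk hP h⟩

end Pool.Agent.Results.MP_0e978c_ag.LinesUpperHalf
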