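import Pool.Agent.GrCyc.NearRect
import Pool.Agent.GrCyc.Stable

/-!
The effective cones of cycles of small dimension of hypersurfaces of Grassmannians, all degrees.

If `k ≤ 3` and `k ≠ m`, `k ≠ n - m` (no condition on `m`, `n` if `k ≤ 1`), then every hypersurface `X`
of `Gr(m,n)`, of any degree, satisfies `Eff_k(X) = Eff_k(Gr(m,n))`, the cone spanned by the Schubert
classes.
-/

namespace Pool.Agent.Results.MP_0e978c_ag.SmallDimension

open Pool.Agent.GrCyc

theorem result (k d m n : ℕ) (hd : 1 ≤ d) (hm : 1 ≤ m) (hmn : m < n) (hk : k < m * (n - m))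
    (hk3 : k ≤ 1 ∨ (k ≤ 3 ∧ k ≠ m ∧ k ≠ n - m)) (X : Set (Gr m n)) (hX : IsHypersurface d X) :
    effCone k X = effCone k (Set.univ : Set (Gr m n)) ∧ effCone k X = schubertCone m n k := by
  have h := small_dimension hd hm hmn hk hk3 hX
  exact ⟨h.trans (effCone_univ k).symm, h⟩

end Pool.Agent.Results.MP_0e978c_ag.SmallDimension
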