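import Pool.Agent.GrCyc.Stable

/-!
The effective cones of cycles of hypersurfaces of Grassmannians in the stable range.

For all `k` and `d ≥ 1` and all `n ≥ 2 (k + (d + 1) ^ (k (2 k + 1))) + 1` (and all `m`), every
hypersurface `X` of degree `d` of `Gr(m,n)` satisfies `Eff_k(X) = Eff_k(Gr(m,n))`, the cone spanned by
the Schubert classes; moreover `2 k < dim X`.
-/

namespace Pool.Agent.Results.MP_0e978c_ag.StableRange

open Pool.Agent.GrCyc

theorem result (k d m n : ℕ) (hd : 1 ≤ d) (hm : 1 ≤ m) (hmn : m < n)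
    (hn : 2 * (k + (d + 1) ^ (k * (2 * k + 1))) + 1 ≤ n) (X : Set (Gr m n))
    (hX : IsHypersurface d X) :
    2 * k < m * (n - m) - 1 ∧ effCone k X = effCone k (Set.univ : Set (Gr m n)) ∧
      effCone k X = schubertCone m n k := by
  obtain ⟨h1, h2⟩ := stable_range hd hm hmn hn hX
  exact ⟨h1, h2.trans (effCone_univ k).symm, h2⟩

end Pool.Agent.Results.MP_0e978c_ag.StableRange
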